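import Mathlib
import Pool.Agent.K1H32.TD.Stm

set_option autoImplicit false

/-!
# The principal branch of powers on the unit circle: `S_ULOG` and `S_UBD`
-/

open Filter Topology MeasureTheory

namespace Pool.Agent.K1H65.TD

open Pool.Agent.K1H32.TD

theorem log_unit {w : ℂ} (hw : ‖w‖ = 1) : ‖Complex.log w‖ ≤ Real.pi := by
  have h1 : Complex.log w = (Complex.arg w : ℂ) * Complex.I := by
    unfold Complex.log
    rw [hw, Real.log_one]
    simp
  rw [h1, norm_mul, Complex.norm_I, mul_one, Complex.norm_real]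
  exact Complex.abs_arg_le_pi w

theorem re_unit {w : ℂ} (hw : ‖w‖ = 1) : w.re = Real.cos (Complex.arg w) := by
  have h0 : w ≠ 0 := by
    intro h
    rw [h, norm_zero] at hw
    exact zero_ne_one hw
  rw [Complex.cos_arg h0, hw, div_one]

/-- the arguments of two unit numbers add up without wrapping -/
theorem arg_add_mem {w ζ : ℂ} (hw : ‖w‖ = 1) (hζ : ‖ζ‖ = 1) (h : -ζ.re < w.re) :
    |Complex.arg w| + |Complex.arg ζ| < Real.pi := by
  by_contra hcon
  rw [not_lt] at hcon
  have h1 : Real.pi - |Complex.arg ζ| ≤ |Complex.arg w| := by linarith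
  have h2 := Complex.abs_arg_le_pi ζ
  have h3 := Complex.abs_arg_le_pi w
  have h4 : Real.cos |Complex.arg w| ≤ Real.cos (Real.pi - |Complex.arg ζ|) :=
    Real.cos_le_cos_of_nonneg_of_le_pi (by linarith) h3 h1
  rw [Real.cos_pi_sub, Real.cos_abs, Real.cos_abs, ← re_unit hw, ← re_unit hζ] at h4
  linarith

/-- away from `t₀`, a jump at `t` near `t₀` is a constant multiple of the jump at `t₀` -/
theorem t_ULOG : S_ULOG := by
  intro β t t₀ z ht ht₀ hz hlt
  have ht0 : t ≠ 0 := by intro h; rw [h, norm_zero] at ht; exact zero_ne_one ht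
  have ht₀0 : t₀ ≠ 0 := by intro h; rw [h, norm_zero] at ht₀; exact zero_ne_one ht₀
  have hz0 : z ≠ 0 := by intro h; rw [h, norm_zero] at hz; exact zero_ne_one hz
  obtain ⟨w, hw⟩ : ∃ w : ℂ, w = -z / t₀ := ⟨_, rfl⟩
  obtain ⟨ζ, hζ⟩ : ∃ ζ : ℂ, ζ = t₀ / t := ⟨_, rfl⟩
  have hw1 : ‖w‖ = 1 := by rw [hw, norm_div, norm_neg, hz, ht₀, div_one]
  have hζ1 : ‖ζ‖ = 1 := by rw [hζ, norm_div, ht₀, ht, div_one]
  have hw0 : w ≠ 0 := by intro h; rw [h, norm_zero] at hw1; exact zero_ne_one hw1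
  have hζ0 : ζ ≠ 0 := by intro h; rw [h, norm_zero] at hζ1; exact zero_ne_one hζ1
  have hwζ : -z / t = w * ζ := by rw [hw, hζ]; field_simp
  have h1 : ‖w + 1‖ = ‖z - t₀‖ := by
    have : w + 1 = -(z - t₀) / t₀ := by rw [hw]; field_simp; ring
    rw [this, norm_div, norm_neg, ht₀, div_one]
  have h2 : ‖ζ - 1‖ = ‖t - t₀‖ := by
    have : ζ - 1 = -(t - t₀) / t := by rw [hζ]; field_simp; ring
    rw [this, norm_div, norm_neg, ht, div_one]
  have h3 : ‖w + 1‖ ^ 2 = 2 + 2 * w.re := by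
    rw [← Complex.normSq_eq_norm_sq]
    have h4 : Complex.normSq w = 1 := by rw [Complex.normSq_eq_norm_sq, hw1, one_pow]
    rw [Complex.normSq_apply] at h4 ⊢
    simp only [Complex.add_re, Complex.add_im, Complex.one_re, Complex.one_im, add_zero]
    linear_combination h4
  have h4 : ‖ζ - 1‖ ^ 2 = 2 - 2 * ζ.re := by
    rw [← Complex.normSq_eq_norm_sq]
    have h5 : Complex.normSq ζ = 1 := by rw [Complex.normSq_eq_norm_sq, hζ1, one_pow]
    rw [Complex.normSq_apply] at h5 ⊢
    simp only [Complex.sub_re, Complex.sub_im, Complex.one_re, Complex.one_im, sub_zero]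
    linear_combination h5
  have h5 : ‖ζ - 1‖ ^ 2 < ‖w + 1‖ ^ 2 := by
    rw [h1, h2]
    exact pow_lt_pow_left₀ hlt (norm_nonneg _) (by norm_num)
  have h6 := arg_add_mem hw1 hζ1 (by linarith)
  have h7 : Complex.arg w + Complex.arg ζ ∈ Set.Ioc (-Real.pi) Real.pi := by
    have h8 := abs_add_le (Complex.arg w) (Complex.arg ζ)
    have h9 : |Complex.arg w + Complex.arg ζ| < Real.pi := lt_of_le_of_lt h8 h6
    rw [abs_lt] at h9
    exact ⟨h9.1, h9.2.le⟩
  have h8 : Complex.log (w * ζ) = Complex.log w + Complex.log ζ := Complex.log_mul hw0 hζ0 h7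
  unfold u
  rw [hwζ, ← hζ, ← hw, Complex.cpow_def_of_ne_zero (mul_ne_zero hw0 hζ0),
    Complex.cpow_def_of_ne_zero hw0, Complex.cpow_def_of_ne_zero hζ0, h8, ← Complex.exp_add]
  congr 1
  ring

/-- a product of pure jumps is the exponential of something small -/
theorem t_UBD : S_UBD := by
  intro R β t z ht hz
  refine ⟨∑ r, Complex.log (-z / t r) * β r, ?_, ?_⟩
  · rw [Complex.exp_sum]
    refine Finset.prod_congr rfl fun r _ => ?_
    unfold u
    rw [Complex.cpow_def_of_ne_zero]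
    intro h
    have h1 : ‖-z / t r‖ = 1 := by rw [norm_div, norm_neg, hz, ht r, div_one]
    rw [h, norm_zero] at h1
    exact zero_ne_one h1
  · refine (norm_sum_le _ _).trans ?_
    rw [Finset.mul_sum]
    refine Finset.sum_le_sum fun r _ => ?_
    rw [norm_mul]
    refine mul_le_mul_of_nonneg_right (log_unit ?_) (norm_nonneg _)
    rw [norm_div, norm_neg, hz, ht r, div_one]

end Pool.Agent.K1H65.TD
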