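import Mathlib
import Pool.Agent.K1H32.TD.Stm

set_option autoImplicit false

/-!
# Calculus on the circle: `S_WIND` and `S_DEC`
-/

open Filter Topology MeasureTheory

namespace Pool.Agent.K1H65.TD

open Pool.Agent.K1H32.TD

theorem ex_add (x : ℝ) : ex (x + 2 * Real.pi) = ex x := by
  unfold ex
  have h : ((x + 2 * Real.pi : ℝ) : ℂ) * Complex.I = x * Complex.I + 2 * Real.pi * Complex.I := by
    push_cast; ring
  rw [h, Complex.exp_add, Complex.exp_two_pi_mul_I, mul_one]

theorem norm_ex (x : ℝ) : ‖ex x‖ = 1 := Complex.norm_exp_ofReal_mul_I x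

/-- a smooth nonvanishing function of winding number zero has a continuous periodic logarithm -/
theorem t_WIND : S_WIND := by
  intro b hb
  obtain ⟨B, hB⟩ : ∃ B : ℝ → ℂ, B = fun x => b (ex x) := ⟨_, rfl⟩
  have hBs : ContDiff ℝ (⊤ : ℕ∞) B := by rw [hB]; exact hb.smooth
  have hB0 : ∀ x, B x ≠ 0 := fun x => by rw [hB]; exact hb.nonzero _ (norm_ex x)
  have hBp : ∀ x, B (x + 2 * Real.pi) = B x := fun x => by rw [hB]; simp only [ex_add]
  have hBd : Differentiable ℝ B := hBs.differentiable (by simp)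
  have hBc' : Continuous (deriv B) := hBs.continuous_deriv (by simp)
  obtain ⟨φ, hφ⟩ : ∃ φ : ℝ → ℂ, φ = fun x => deriv B x / B x := ⟨_, rfl⟩
  have hφc : Continuous φ := by rw [hφ]; exact hBc'.div hBs.continuous hB0
  have hdp : ∀ x, deriv B (x + 2 * Real.pi) = deriv B x := by
    intro x
    have h1 : deriv (fun y => B (y + 2 * Real.pi)) x = deriv B (x + 2 * Real.pi) :=
      deriv_comp_add_const B (2 * Real.pi) x
    rw [← h1]
    congr 1
    funext y
    exact hBp y
  have hφp : Function.Periodic φ (2 * Real.pi) := by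
    intro x
    rw [hφ]
    simp only [hdp, hBp]
  have hint : ∀ a c : ℝ, IntervalIntegrable φ volume a c := fun a c => hφc.intervalIntegrable a c
  have hφ0 : ∫ x in (0 : ℝ)..(2 * Real.pi), φ x = 0 := by
    have := hb.winding
    rw [hφ]
    simpa only [hB] using this
  obtain ⟨h, hh⟩ : ∃ h : ℝ → ℂ, h = fun x => Complex.log (B 0) + ∫ t in (0 : ℝ)..x, φ t := ⟨_, rfl⟩
  have hder : ∀ x, HasDerivAt h (φ x) x := by
    intro x
    rw [hh]
    exact (intervalIntegral.integral_hasDerivAt_right (hint 0 x)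
      hφc.aestronglyMeasurable.stronglyMeasurableAtFilter hφc.continuousAt).const_add _
  refine ⟨h, ?_, ?_, ?_⟩
  · exact continuous_iff_continuousAt.2 fun x => (hder x).continuousAt
  · intro x
    have h1 : ∫ t in (0 : ℝ)..(x + 2 * Real.pi), φ t =
        (∫ t in (0 : ℝ)..x, φ t) + ∫ t in x..(x + 2 * Real.pi), φ t :=
      (intervalIntegral.integral_add_adjacent_intervals (hint _ _) (hint _ _)).symm
    have h2 : ∫ t in x..(x + 2 * Real.pi), φ t = ∫ t in (0 : ℝ)..(0 + 2 * Real.pi), φ t :=
      hφp.intervalIntegral_add_eq x 0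
    rw [zero_add, hφ0] at h2
    rw [hh]
    simp only [h1, h2, add_zero]
  · intro x
    have hconst : ∀ y, B y * Complex.exp (-h y) = B 0 * Complex.exp (-h 0) := by
      intro y
      refine is_const_of_deriv_eq_zero (f := fun y => B y * Complex.exp (-h y)) ?_ ?_ y 0
      · intro z
        exact (hBd z).mul ((hder z).neg.cexp.differentiableAt)
      · intro z
        have h1 : HasDerivAt (fun y => B y * Complex.exp (-h y))
            (deriv B z * Complex.exp (-h z) + B z * (Complex.exp (-h z) * -φ z)) z :=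
          ((hBd z).hasDerivAt).mul ((hder z).neg.cexp)
        rw [h1.deriv]
        have h2 : φ z * B z = deriv B z := by
          rw [hφ]; exact div_mul_cancel₀ _ (hB0 z)
        rw [← h2]; ring
    have h0 : B 0 * Complex.exp (-h 0) = 1 := by
      have : h 0 = Complex.log (B 0) := by rw [hh]; simp
      rw [this, Complex.exp_neg, Complex.exp_log (hB0 0), mul_inv_cancel₀ (hB0 0)]
    have h1 := hconst x
    rw [h0, Complex.exp_neg] at h1
    have h2 : B x = Complex.exp (h x) := by
      have h3 := Complex.exp_ne_zero (h x)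
      field_simp at h1
      exact h1
    rw [← h2, hB]

/-- integration by parts, iterated -/
theorem dec_aux (N : ℕ) : ∀ s : ℝ → ℂ, ContDiff ℝ (⊤ : ℕ∞) s →
    (∀ x, s (x + 2 * Real.pi) = s x) →
    ∃ C : ℝ, 0 ≤ C ∧ ∀ k : ℤ, k ≠ 0 →
      ‖∫ x in (0 : ℝ)..(2 * Real.pi), s x * Complex.exp (-(k * x * Complex.I))‖ ≤
        C / |(k : ℝ)| ^ N := by
  induction N with
  | zero =>
    intro s hs _
    refine ⟨∫ x in (0 : ℝ)..(2 * Real.pi), ‖s x‖, ?_, fun k _ => ?_⟩
    · exact intervalIntegral.integral_nonneg Real.two_pi_pos.le fun x _ => norm_nonneg _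
    · rw [pow_zero, div_one]
      refine (intervalIntegral.norm_integral_le_integral_norm Real.two_pi_pos.le).trans (le_of_eq ?_)
      refine intervalIntegral.integral_congr fun x _ => ?_
      simp only [norm_mul]
      have h1 : (-(k * x * Complex.I) : ℂ) = ((-(k * x) : ℝ) : ℂ) * Complex.I := by push_cast; ring
      rw [h1, Complex.norm_exp_ofReal_mul_I, mul_one]
  | succ N ih =>
    intro s hs hp
    have hs' : ContDiff ℝ (⊤ : ℕ∞) (deriv s) := by
      have := (contDiff_infty_iff_deriv (f := s)).1 hs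
      exact this.2
    have hp' : ∀ x, deriv s (x + 2 * Real.pi) = deriv s x := by
      intro x
      have h1 : deriv (fun y => s (y + 2 * Real.pi)) x = deriv s (x + 2 * Real.pi) :=
        deriv_comp_add_const s (2 * Real.pi) x
      rw [← h1]
      congr 1
      funext y
      exact hp y
    obtain ⟨C, hC0, hC⟩ := ih (deriv s) hs' hp'
    refine ⟨C, hC0, fun k hk => ?_⟩
    have hkC : (k : ℂ) ≠ 0 := by exact_mod_cast hk
    have hkI : (-(k * Complex.I) : ℂ) ≠ 0 := by
      simp [hkC]
    have hv : ∀ x : ℝ, HasDerivAt (fun x : ℝ => Complex.exp (-(k * x * Complex.I)) / (-(k * Complex.I)))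
        (Complex.exp (-(k * x * Complex.I))) x := by
      intro x
      have h1 : HasDerivAt (fun x : ℝ => (-(k * x * Complex.I) : ℂ)) (-(k * Complex.I)) x := by
        have h2 : HasDerivAt (fun x : ℝ => (x : ℂ)) 1 x := Complex.ofRealCLM.hasDerivAt
        have h3 := ((h2.const_mul (k : ℂ)).mul_const Complex.I).neg
        rw [mul_one] at h3
        exact h3
      have h2 := h1.cexp.div_const (-(k * Complex.I))
      rwa [mul_div_cancel_right₀ _ hkI] at h2
    have hsd : ∀ x : ℝ, HasDerivAt s (deriv s x) x := fun x =>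
      ((hs.differentiable (by simp)) x).hasDerivAt
    have hparts := intervalIntegral.integral_mul_deriv_eq_deriv_mul (a := (0 : ℝ)) (b := 2 * Real.pi)
      (u := s) (v := fun x : ℝ => Complex.exp (-(k * x * Complex.I)) / (-(k * Complex.I)))
      (u' := deriv s) (v' := fun x : ℝ => Complex.exp (-(k * x * Complex.I)))
      (fun x _ => hsd x) (fun x _ => hv x)
      (hs'.continuous.intervalIntegrable _ _)
      ((by fun_prop : Continuous fun x : ℝ => Complex.exp (-(k * x * Complex.I))).intervalIntegrable _ _)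
    have hs2 : s (2 * Real.pi) = s 0 := by have := hp 0; rwa [zero_add] at this
    have hv2 : Complex.exp (-(k * ((2 * Real.pi : ℝ) : ℂ) * Complex.I)) =
        Complex.exp (-(k * ((0 : ℝ) : ℂ) * Complex.I)) := by
      rw [Complex.exp_eq_exp_iff_exists_int]
      refine ⟨-k, ?_⟩
      push_cast
      ring
    rw [hs2, hv2, sub_self, zero_sub] at hparts
    have h1 : ∫ x in (0 : ℝ)..(2 * Real.pi), deriv s x *
        (Complex.exp (-(k * x * Complex.I)) / (-(k * Complex.I))) =
        (∫ x in (0 : ℝ)..(2 * Real.pi), deriv s x * Complex.exp (-(k * x * Complex.I))) /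
          (-(k * Complex.I)) := by
      rw [← intervalIntegral.integral_div]
      refine intervalIntegral.integral_congr fun x _ => ?_
      exact (mul_div_assoc _ _ _).symm
    rw [hparts, h1, norm_neg, norm_div]
    have h2 : ‖(-(k * Complex.I) : ℂ)‖ = |(k : ℝ)| := by
      rw [norm_neg, norm_mul, Complex.norm_I, mul_one]
      exact Complex.norm_intCast k
    have hk1 : 0 < |(k : ℝ)| := abs_pos.2 (by exact_mod_cast hk)
    rw [h2, pow_succ, ← div_div]
    exact div_le_div_of_nonneg_right (hC k hk) hk1.le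

/-- Fourier coefficients of smooth periodic functions decay fast -/
theorem t_DEC : S_DEC := by
  intro s hs hp
  obtain ⟨C, hC0, hC⟩ := dec_aux 8 s hs hp
  refine ⟨max (256 * C) ‖∫ x in (0 : ℝ)..(2 * Real.pi), s x * Complex.exp (-((0 : ℤ) * x * Complex.I))‖,
    fun k => ?_⟩
  by_cases hk : k = 0
  · subst hk
    simp only [Int.cast_zero, abs_zero, add_zero, one_pow, div_one]
    exact le_max_right _ _
  · have hk1 : 1 ≤ |(k : ℝ)| := by
      have : (1 : ℤ) ≤ |k| := Int.one_le_abs hk
      exact_mod_cast this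
    refine (hC k hk).trans ?_
    rw [div_le_div_iff₀ (by positivity) (by positivity)]
    have h1 : (1 + |(k : ℝ)|) ^ 8 ≤ 256 * |(k : ℝ)| ^ 8 := by
      calc (1 + |(k : ℝ)|) ^ 8 ≤ (2 * |(k : ℝ)|) ^ 8 :=
            pow_le_pow_left₀ (by positivity) (by linarith) 8
        _ = _ := by rw [mul_pow]; norm_num
    calc C * (1 + |(k : ℝ)|) ^ 8 ≤ C * (256 * |(k : ℝ)| ^ 8) := mul_le_mul_of_nonneg_left h1 hC0
      _ = (256 * C) * |(k : ℝ)| ^ 8 := by ring
      _ ≤ _ := mul_le_mul_of_nonneg_right (le_max_left _ _) (by positivity)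

end Pool.Agent.K1H65.TD
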